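import Mathlib

set_option autoImplicit false

/-!
Two cops win on every connected perfect graph with independence number three.

The vertices of such a graph are covered by three cliques (Lovász), and it has no induced cycle of
length five. We show that on a connected graph with these two properties two cops can be placed so
that they catch the robber within two moves.
-/

namespace Pool.Agent.Results.MP_985997_co.TwoCops

open Finset

variable {V : Type*}

/-- `G` is perfect: every induced subgraph has chromatic number equal to its clique number. -/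
def IsPerfect (G : SimpleGraph V) : Prop :=
  ∀ s : Set V, (G.induce s).chromaticNumber = ((G.induce s).cliqueNum : ℕ∞)

/-- A move of a player: staying put or moving to an adjacent vertex. -/
def Move (G : SimpleGraph V) (x y : V) : Prop := x = y ∨ G.Adj x y

/-- `k` cops win on `G`: there are a placement `c₀` of the cops and a (positional) strategy `σ`
such that, whatever the robber's positions `r 0, r 1, ...` are, the cops, whose positions are
`c 0 = c₀` and `c (n + 1) = σ (c n) (r n)`, reach the robber after finitely many moves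
(the cops move first: `c (n + 1)` is played against the robber's position `r n`). -/
def CopsWin (G : SimpleGraph V) (k : ℕ) : Prop :=
  ∃ (c₀ : Fin k → V) (σ : (Fin k → V) → V → (Fin k → V)),
    (∀ c r i, Move G (c i) (σ c r i)) ∧
    ∀ r : ℕ → V, (∀ n, Move G (r n) (r (n + 1))) →
      ∀ c : ℕ → (Fin k → V), c 0 = c₀ → (∀ n, c (n + 1) = σ (c n) (r n)) →
        ∃ n i, c n i = r n ∨ c (n + 1) i = r n

/-- The cop number: the least number of cops that win. -/
noncomputable def copNumber (G : SimpleGraph V) : ℕ := sInf {k | CopsWin G k}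

section cover

variable [Fintype V] [DecidableEq V] {G : SimpleGraph V}

theorem sum_count (M : Multiset (Finset V)) (K : Finset V) :
    ∑ v ∈ K, M.countP (fun T => v ∈ T) = (M.map (fun T => (K ∩ T).card)).sum := by
  induction M using Multiset.induction_on with
  | empty => simp
  | cons T M ih =>
    simp only [Multiset.countP_cons, Multiset.map_cons, Multiset.sum_cons]
    rw [Finset.sum_add_distrib, ih, add_comm]
    congr 1
    rw [← Finset.card_filter, Finset.filter_mem_eq_inter]

theorem clique_inter_le {K T : Finset V} (hK : G.IsClique (K : Set V))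
    (hT : G.IsIndepSet (T : Set V)) : (K ∩ T).card ≤ 1 := by
  rw [Finset.card_le_one]
  intro a ha b hb
  by_contra hab
  rw [Finset.mem_inter] at ha hb
  exact hT (by exact_mod_cast ha.2) (by exact_mod_cast hb.2) hab
    (hK (by exact_mod_cast ha.1) (by exact_mod_cast hb.1) hab)

theorem sum_le_of_disjoint {M : Multiset (Finset V)} (hM : ∀ T ∈ M, G.IsIndepSet (T : Set V))
    {f : V → ℕ} (hf : ∀ v, f v ≤ M.countP (fun T => v ∈ T)) {S : Finset V} (hS : S ∈ M)
    {K : Finset V} (hK : G.IsClique (K : Set V)) (hKS : K ∩ S = ∅) :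
    ∑ v ∈ K, f v ≤ Multiset.card M - 1 := by
  calc ∑ v ∈ K, f v ≤ ∑ v ∈ K, M.countP (fun T => v ∈ T) := Finset.sum_le_sum (fun v _ => hf v)
    _ = (M.map (fun T => (K ∩ T).card)).sum := sum_count M K
    _ ≤ Multiset.card M - 1 := by
      obtain ⟨M', rfl⟩ := Multiset.exists_cons_of_mem hS
      simp only [Multiset.map_cons, Multiset.sum_cons, hKS, Finset.card_empty, zero_add,
        Multiset.card_cons, Nat.add_sub_cancel]
      have : ∀ x ∈ M'.map (fun T => (K ∩ T).card), x ≤ 1 := by
        intro x hx
        obtain ⟨T, hT, rfl⟩ := Multiset.mem_map.1 hx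
        exact clique_inter_le hK (hM T (Multiset.mem_cons_of_mem hT))
      have h2 := Multiset.sum_le_card_nsmul _ 1 this
      simpa using h2

/-- weighted form of perfection -/
theorem cover (hG : IsPerfect G) : ∀ (t : ℕ) (f : V → ℕ) (m : ℕ), ∑ v, f v = t →
    (∀ K : Finset V, G.IsClique (K : Set V) → ∑ v ∈ K, f v ≤ m) →
    ∃ M : Multiset (Finset V), Multiset.card M ≤ m ∧ (∀ T ∈ M, G.IsIndepSet (T : Set V)) ∧
      ∀ v, f v ≤ M.countP (fun T => v ∈ T) := by
  intro t
  induction t using Nat.strong_induction_on with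
  | _ t ih =>
    intro f m hft hf
    by_cases h1 : ∀ v, f v ≤ 1
    · -- colour the induced subgraph
      let U : Set V := {v | f v = 1}
      have hω : (G.induce U).cliqueNum ≤ m := by
        obtain ⟨s, hs⟩ := (G.induce U).exists_isNClique_cliqueNum
        have hcl : G.IsClique ((s.map (Function.Embedding.subtype (· ∈ U)) : Finset V) : Set V) := by
          intro a ha b hb hab
          simp only [Finset.coe_map, Set.mem_image, Finset.mem_coe] at ha hb
          obtain ⟨a', ha', rfl⟩ := ha
          obtain ⟨b', hb', rfl⟩ := hb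
          exact hs.isClique (by exact_mod_cast ha') (by exact_mod_cast hb')
            (fun h => hab (by rw [h]))
        have h2 := hf _ hcl
        rw [Finset.sum_map] at h2
        have h3 : ∑ x ∈ s, f ((Function.Embedding.subtype (· ∈ U)) x) = s.card := by
          rw [Finset.card_eq_sum_ones]
          exact Finset.sum_congr rfl (fun x _ => x.2)
        rw [h3, hs.card_eq] at h2
        exact h2
      have hcol : (G.induce U).Colorable m := by
        rw [← SimpleGraph.chromaticNumber_le_iff_colorable, hG U]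
        exact_mod_cast hω
      obtain ⟨C⟩ := hcol
      classical
      let S : Fin m → Finset V := fun i => Finset.univ.filter (fun v => ∃ h : v ∈ U, C ⟨v, h⟩ = i)
      refine ⟨(Finset.univ : Finset (Fin m)).val.map S, by simp, ?_, ?_⟩
      · intro T hT
        obtain ⟨i, _, rfl⟩ := Multiset.mem_map.1 hT
        intro a ha b hb _ hadj
        simp only [S, Finset.coe_filter, Finset.mem_univ, true_and, Set.mem_setOf_eq] at ha hb
        obtain ⟨ha1, ha2⟩ := ha
        obtain ⟨hb1, hb2⟩ := hb
        have : (G.induce U).Adj ⟨a, ha1⟩ ⟨b, hb1⟩ := hadj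
        exact C.valid this (ha2.trans hb2.symm)
      · intro v
        by_cases hv : f v = 1
        · rw [hv, Nat.one_le_iff_ne_zero, Ne, Multiset.countP_eq_zero]
          intro h
          apply h (S (C ⟨v, hv⟩)) (Multiset.mem_map_of_mem S (Finset.mem_univ_val _))
          exact Finset.mem_filter.2 ⟨Finset.mem_univ _, hv, rfl⟩
        · have := h1 v
          have : f v = 0 := by omega
          rw [this]; exact Nat.zero_le _
    · push Not at h1
      obtain ⟨x, hx⟩ := h1
      let f' : V → ℕ := Function.update f x (f x - 1)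
      have hf'x : f' x = f x - 1 := Function.update_self _ _ _
      have hf'y : ∀ y, y ≠ x → f' y = f y := fun y hy => Function.update_of_ne hy _ _
      have hf'le : ∀ y, f' y ≤ f y := by
        intro y
        by_cases hy : y = x
        · subst hy; omega
        · rw [hf'y y hy]
      have hlt : ∑ v, f' v < t := by
        rw [← hft]
        exact Finset.sum_lt_sum (fun y _ => hf'le y) ⟨x, Finset.mem_univ _, by omega⟩
      obtain ⟨M, hMc, hMi, hMf⟩ := ih _ hlt f' m rfl
        (fun K hK => (Finset.sum_le_sum (fun y _ => hf'le y)).trans (hf K hK))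
      have hxM : ∃ S ∈ M, x ∈ S := by
        have h2 : 0 < M.countP (fun T => x ∈ T) := lt_of_lt_of_le (by omega) (hMf x)
        exact Multiset.countP_pos.1 h2
      obtain ⟨S, hS, hxS⟩ := hxM
      have hcM : 1 ≤ Multiset.card M := Multiset.card_pos.2 (fun h => by rw [h] at hS; simp at hS)
      let g : V → ℕ := fun y => if y ∈ S ∧ y ≠ x then f' y - 1 else f' y
      have hgle : ∀ y, g y ≤ f' y := by
        intro y; simp only [g]; split_ifs <;> omega
      have hgK : ∀ K : Finset V, G.IsClique (K : Set V) → ∑ v ∈ K, g v ≤ m - 1 := by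
        intro K hK
        by_cases hxK : x ∈ K
        · have h2 : ∑ v ∈ K, f' v < ∑ v ∈ K, f v :=
            Finset.sum_lt_sum (fun y _ => hf'le y) ⟨x, hxK, by omega⟩
          have h3 := hf K hK
          have h4 : ∑ v ∈ K, g v ≤ ∑ v ∈ K, f' v := Finset.sum_le_sum (fun y _ => hgle y)
          omega
        · by_cases hKS : K ∩ S = ∅
          · have h2 := sum_le_of_disjoint hMi hMf hS hK hKS
            have h4 : ∑ v ∈ K, g v ≤ ∑ v ∈ K, f' v := Finset.sum_le_sum (fun y _ => hgle y)
            omega
          · obtain ⟨y, hy⟩ := Finset.nonempty_iff_ne_empty.2 hKS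
            obtain ⟨hyK, hyS⟩ := Finset.mem_inter.1 hy
            have hyx : y ≠ x := fun h => hxK (h ▸ hyK)
            have hgy : g y = f' y - 1 := by simp only [g]; rw [if_pos ⟨hyS, hyx⟩]
            by_cases hfy : f' y = 0
            · have hK' : G.IsClique ((K.erase y : Finset V) : Set V) :=
                hK.subset (by exact_mod_cast Finset.erase_subset y K)
              have hdis : K.erase y ∩ S = ∅ := by
                rw [Finset.eq_empty_iff_forall_notMem]
                intro z hz
                obtain ⟨hz1, hz2⟩ := Finset.mem_inter.1 hz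
                have h5 := clique_inter_le hK (hMi S hS)
                rw [Finset.card_le_one] at h5
                exact (Finset.mem_erase.1 hz1).1
                  (h5 z (Finset.mem_inter.2 ⟨(Finset.mem_erase.1 hz1).2, hz2⟩) y hy)
              have h2 := sum_le_of_disjoint hMi hMf hS hK' hdis
              have h3 : ∑ v ∈ K, g v = g y + ∑ v ∈ K.erase y, g v :=
                (Finset.add_sum_erase K g hyK).symm
              have h4 : ∑ v ∈ K.erase y, g v ≤ ∑ v ∈ K.erase y, f' v :=
                Finset.sum_le_sum (fun y _ => hgle y)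
              omega
            · have h2 : ∑ v ∈ K, g v < ∑ v ∈ K, f' v :=
                Finset.sum_lt_sum (fun y _ => hgle y) ⟨y, hyK, by omega⟩
              have h3 : ∑ v ∈ K, f' v ≤ ∑ v ∈ K, f v := Finset.sum_le_sum (fun y _ => hf'le y)
              have h4 := hf K hK
              omega
      have hgt : ∑ v, g v < t := lt_of_le_of_lt (Finset.sum_le_sum (fun y _ => hgle y)) hlt
      obtain ⟨M2, hM2c, hM2i, hM2f⟩ := ih _ hgt g (m - 1) rfl hgK
      refine ⟨S ::ₘ M2, ?_, ?_, ?_⟩
      · rw [Multiset.card_cons]; omega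
      · intro T hT
        rcases Multiset.mem_cons.1 hT with rfl | hT
        · exact hMi _ hS
        · exact hM2i T hT
      · intro y
        have h2 := hM2f y
        rw [Multiset.countP_cons]
        by_cases hyx : y = x
        · subst hyx
          have h3 : g y = f' y := by simp [g]
          rw [if_pos hxS]
          omega
        · have h3 := hf'y y hyx
          by_cases hyS : y ∈ S
          · have hgy : g y = f' y - 1 := by simp only [g]; rw [if_pos ⟨hyS, hyx⟩]
            rw [if_pos hyS]
            omega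
          · have hgy : g y = f' y := by simp only [g]; rw [if_neg (fun h => hyS h.1)]
            rw [if_neg hyS]
            omega

/-- in a perfect graph some clique meets all the largest independent subsets of `U` -/
theorem exists_clique (hG : IsPerfect G) (U : Finset V) (a : ℕ) (ha : 1 ≤ a)
    (hU : ∀ S : Finset V, S ⊆ U → G.IsIndepSet (S : Set V) → S.card ≤ a) :
    ∃ K : Finset V, G.IsClique (K : Set V) ∧ ∀ S : Finset V, S ⊆ U → G.IsIndepSet (S : Set V) →
      S.card = a → (K ∩ S).Nonempty := by
  classical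
  by_contra hcon
  push Not at hcon
  have hcon' : ∀ K : Finset V, ∃ S : Finset V, G.IsClique (K : Set V) →
      (S ⊆ U ∧ G.IsIndepSet (S : Set V) ∧ S.card = a ∧ K ∩ S = ∅) := by
    intro K
    by_cases hK : G.IsClique (K : Set V)
    · obtain ⟨S, h1, h2, h3, h4⟩ := hcon K hK
      exact ⟨S, fun _ => ⟨h1, h2, h3, h4⟩⟩
    · exact ⟨∅, fun h => absurd h hK⟩
  choose A hA using hcon'
  let 𝒦 : Finset (Finset V) := Finset.univ.filter (fun K => G.IsClique (K : Set V))
  have hmem : ∀ K, K ∈ 𝒦 ↔ G.IsClique (K : Set V) := by intro K; simp [𝒦]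
  have hN : 1 ≤ 𝒦.card := by
    rw [Nat.one_le_iff_ne_zero, Ne, Finset.card_eq_zero]
    intro h
    have : (∅ : Finset V) ∈ 𝒦 := (hmem ∅).2 (by simp)
    rw [h] at this; simp at this
  let f : V → ℕ := fun v => (𝒦.filter (fun K => v ∈ A K)).card
  have hsum : ∀ W : Finset V, ∑ v ∈ W, f v = ∑ K ∈ 𝒦, (W ∩ A K).card := by
    intro W
    simp only [f]
    have e1 : ∀ v, (𝒦.filter (fun K => v ∈ A K)).card = ∑ K ∈ 𝒦, if v ∈ A K then 1 else 0 := by
      intro v; rw [Finset.card_filter]
    rw [Finset.sum_congr rfl (fun v _ => e1 v), Finset.sum_comm]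
    refine Finset.sum_congr rfl (fun K _ => ?_)
    rw [← Finset.card_filter, Finset.filter_mem_eq_inter]
  have hK : ∀ K : Finset V, G.IsClique (K : Set V) → ∑ v ∈ K, f v ≤ 𝒦.card - 1 := by
    intro K hK
    rw [hsum K, ← Finset.add_sum_erase 𝒦 _ ((hmem K).2 hK), (hA K hK).2.2.2, Finset.card_empty,
      zero_add, ← Finset.card_erase_of_mem ((hmem K).2 hK)]
    calc ∑ L ∈ 𝒦.erase K, (K ∩ A L).card ≤ ∑ L ∈ 𝒦.erase K, 1 := by
          apply Finset.sum_le_sum
          intro L hL
          have hL' := (hmem L).1 (Finset.mem_of_mem_erase hL)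
          exact clique_inter_le hK (hA L hL').2.1
      _ = (𝒦.erase K).card := by simp
  obtain ⟨M, hMc, hMi, hMf⟩ := cover hG _ f (𝒦.card - 1) rfl hK
  have h1 : ∑ v ∈ U, f v = 𝒦.card * a := by
    rw [hsum U]
    rw [Finset.sum_congr rfl (fun K hK => by
      have := hA K ((hmem K).1 hK)
      rw [Finset.inter_eq_right.2 this.1, this.2.2.1])]
    rw [Finset.sum_const, smul_eq_mul]
  have h2 : ∑ v ∈ U, f v ≤ Multiset.card M * a := by
    calc ∑ v ∈ U, f v ≤ ∑ v ∈ U, M.countP (fun T => v ∈ T) := Finset.sum_le_sum (fun v _ => hMf v)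
      _ = (M.map (fun T => (U ∩ T).card)).sum := sum_count M U
      _ ≤ Multiset.card M * a := by
        have : ∀ x ∈ M.map (fun T => (U ∩ T).card), x ≤ a := by
          intro x hx
          obtain ⟨T, hT, rfl⟩ := Multiset.mem_map.1 hx
          refine hU _ Finset.inter_subset_left ((hMi T hT).mono ?_)
          exact_mod_cast Finset.inter_subset_right
        have h3 := Multiset.sum_le_card_nsmul _ a this
        simpa using h3
  have h3 : Multiset.card M * a ≤ (𝒦.card - 1) * a := Nat.mul_le_mul_right a hMc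
  have h4 : (𝒦.card - 1) * a + a = 𝒦.card * a := by
    obtain ⟨k, hk⟩ : ∃ k, 𝒦.card = k + 1 := ⟨𝒦.card - 1, by omega⟩
    rw [hk, Nat.add_sub_cancel]; ring
  omega

/-- a perfect graph with independence number three is covered by three cliques -/
theorem three_cliques (hG : IsPerfect G) (hα : G.indepNum = 3) :
    ∃ p : V → Fin 3, ∀ u v, p u = p v → u ≠ v → G.Adj u v := by
  classical
  have h3 : ∀ S : Finset V, S ⊆ Finset.univ → G.IsIndepSet (S : Set V) → S.card ≤ 3 := by
    intro S _ hS
    rw [← hα]; exact hS.card_le_indepNum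
  obtain ⟨K1, hK1, hK1'⟩ := exists_clique hG Finset.univ 3 (by norm_num) h3
  have h2 : ∀ S : Finset V, S ⊆ Finset.univ \ K1 → G.IsIndepSet (S : Set V) → S.card ≤ 2 := by
    intro S hSsub hS
    by_contra hcon
    have h4 : S.card = 3 := le_antisymm (h3 S (Finset.subset_univ _) hS) (by omega)
    obtain ⟨x, hx⟩ := hK1' S (Finset.subset_univ _) hS h4
    obtain ⟨hx1, hx2⟩ := Finset.mem_inter.1 hx
    exact (Finset.mem_sdiff.1 (hSsub hx2)).2 hx1
  obtain ⟨K2, hK2, hK2'⟩ := exists_clique hG (Finset.univ \ K1) 2 (by norm_num) h2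
  refine ⟨fun v => if v ∈ K1 then 0 else if v ∈ K2 then 1 else 2, ?_⟩
  intro u v huv hne
  simp only at huv
  by_cases hu1 : u ∈ K1
  · by_cases hv1 : v ∈ K1
    · exact hK1 (by exact_mod_cast hu1) (by exact_mod_cast hv1) hne
    · exfalso
      rw [if_pos hu1, if_neg hv1] at huv
      split_ifs at huv <;> simp at huv
  · by_cases hv1 : v ∈ K1
    · exfalso
      rw [if_neg hu1, if_pos hv1] at huv
      split_ifs at huv <;> simp at huv
    · rw [if_neg hu1, if_neg hv1] at huv
      by_cases hu2 : u ∈ K2
      · by_cases hv2 : v ∈ K2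
        · exact hK2 (by exact_mod_cast hu2) (by exact_mod_cast hv2) hne
        · rw [if_pos hu2, if_neg hv2] at huv
          exact absurd huv (by decide)
      · by_cases hv2 : v ∈ K2
        · rw [if_neg hu2, if_pos hv2] at huv
          exact absurd huv (by decide)
        · by_contra hadj
          have hS : G.IsIndepSet (({u, v} : Finset V) : Set V) := by
            intro a ha b hb hab
            simp only [Finset.coe_insert, Finset.coe_singleton, Set.mem_insert_iff,
              Set.mem_singleton_iff] at ha hb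
            rcases ha with rfl | rfl <;> rcases hb with rfl | rfl
            · exact absurd rfl hab
            · exact hadj
            · exact fun h => hadj h.symm
            · exact absurd rfl hab
          have hsub : ({u, v} : Finset V) ⊆ Finset.univ \ K1 := by
            intro z hz
            rw [Finset.mem_insert, Finset.mem_singleton] at hz
            rcases hz with rfl | rfl <;> simp [hu1, hv1]
          obtain ⟨x, hx⟩ := hK2' _ hsub hS (Finset.card_pair hne)
          obtain ⟨hx1, hx2⟩ := Finset.mem_inter.1 hx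
          rw [Finset.mem_insert, Finset.mem_singleton] at hx2
          rcases hx2 with rfl | rfl
          · exact hu2 hx1
          · exact hv2 hx1

end cover

section game

variable {G : SimpleGraph V}

/-- perfect graphs have no induced cycle of length five -/
theorem no_C5 (hG : IsPerfect G) {a b c d e : V} (hab : G.Adj a b) (hbc : G.Adj b c)
    (hcd : G.Adj c d) (hde : G.Adj d e) (hea : G.Adj e a) (hac : ¬ G.Adj a c)
    (had : ¬ G.Adj a d) (hbd : ¬ G.Adj b d) (hbe : ¬ G.Adj b e) (hce : ¬ G.Adj c e) : False := by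
  classical
  let x : Fin 5 → V := ![a, b, c, d, e]
  have hadj : ∀ i j : Fin 5, G.Adj (x i) (x j) ↔ (j = i + 1 ∨ i = j + 1) := by
    intro i j
    fin_cases i <;> fin_cases j <;>
      simp [x, hab, hbc, hcd, hde, hea, hac, had, hbd, hbe, hce, hab.symm, hbc.symm, hcd.symm,
        hde.symm, hea.symm, G.adj_comm c a, G.adj_comm d a, G.adj_comm d b, G.adj_comm e b,
        G.adj_comm e c]
  let s : Set V := Set.range x
  have hmem : ∀ i, x i ∈ s := fun i => ⟨i, rfl⟩
  have hω : (G.induce s).cliqueNum ≤ 2 := by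
    by_contra hcon
    obtain ⟨t, ht⟩ := (G.induce s).exists_isNClique_cliqueNum
    have hcard : 2 < t.card := by rw [ht.card_eq]; omega
    obtain ⟨u, hu, v, hv, w, hw, huv, huw, hvw⟩ := Finset.two_lt_card.1 hcard
    obtain ⟨u, i, rfl⟩ := u
    obtain ⟨v, j, rfl⟩ := v
    obtain ⟨w, k, rfl⟩ := w
    have h1 : G.Adj (x i) (x j) := ht.isClique (by exact_mod_cast hu) (by exact_mod_cast hv) huv
    have h2 : G.Adj (x i) (x k) := ht.isClique (by exact_mod_cast hu) (by exact_mod_cast hw) huw
    have h3 : G.Adj (x j) (x k) := ht.isClique (by exact_mod_cast hv) (by exact_mod_cast hw) hvw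
    rw [hadj] at h1 h2 h3
    revert h1 h2 h3
    clear * -
    revert i j k
    decide
  have hcol : (G.induce s).Colorable 2 := by
    rw [← SimpleGraph.chromaticNumber_le_iff_colorable, hG s]
    exact_mod_cast hω
  obtain ⟨C⟩ := hcol
  have hC : ∀ i j : Fin 5, (j = i + 1 ∨ i = j + 1) → C ⟨x i, hmem i⟩ ≠ C ⟨x j, hmem j⟩ := by
    intro i j hij
    apply C.valid
    exact (hadj i j).2 hij
  have key : ∀ g : Fin 5 → Fin 2, ¬ ∀ i j : Fin 5, (j = i + 1 ∨ i = j + 1) → g i ≠ g j := by
    decide
  exact key (fun i => C ⟨x i, hmem i⟩) hC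

/-- closed neighbourhoods -/
def N (G : SimpleGraph V) (x y : V) : Prop := Move G x y

theorem N_symm {x y : V} (h : N G x y) : N G y x := by
  rcases h with h | h
  · exact Or.inl h.symm
  · exact Or.inr h.symm

/-- The combinatorial core: in a connected graph without induced cycles of length five whose
vertices are covered by three cliques, two cops can be placed so that every robber position is
attacked, or is such that its closed neighbourhood is covered after one move of the cops. -/
theorem core (hconn : G.Connected)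
    (hC5 : ∀ a b c d e : V, G.Adj a b → G.Adj b c → G.Adj c d → G.Adj d e → G.Adj e a →
      ¬ G.Adj a c → ¬ G.Adj a d → ¬ G.Adj b d → ¬ G.Adj b e → ¬ G.Adj c e → False)
    (p : V → Fin 3) (hp : ∀ u v, p u = p v → u ≠ v → G.Adj u v) :
    ∃ u v, ∀ r, (N G u r ∨ N G v r) ∨ ∃ u' v', N G u u' ∧ N G v v' ∧
      ∀ r', N G r r' → (N G u' r' ∨ N G v' r') := by
  by_contra hcon
  push Not at hcon
  -- same part implies in the closed neighbourhood
  have hN : ∀ u v, p u = p v → N G u v := by
    intro u v h
    by_cases huv : u = v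
    · exact Or.inl huv
    · exact Or.inr (hp u v h huv)
  have third : ∀ i j k l : Fin 3, i ≠ j → k ≠ i → k ≠ j → l ≠ i → l ≠ j → k = l := by decide
  -- edges between different parts extend
  have L1 : ∀ u v w, p u ≠ p v → p w ≠ p u → p w ≠ p v → G.Adj u v → G.Adj w u → G.Adj w v := by
    intro u v w huv hwu hwv auv awu
    by_contra hwv'
    obtain ⟨r, ⟨hr1, hr2⟩, hr⟩ := hcon u v
    have pr1 : p r ≠ p u := fun h => hr1 (hN u r h.symm)
    have pr2 : p r ≠ p v := fun h => hr2 (hN v r h.symm)
    have prw : p r = p w := third _ _ _ _ huv pr1 pr2 hwu hwv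
    obtain ⟨r', hr'1, hr'2, hr'3⟩ := hr w u (Or.inr awu.symm) (Or.inr auv.symm)
    have pr'1 : p r' ≠ p w := fun h => hr'2 (hN w r' h.symm)
    have pr'2 : p r' ≠ p u := fun h => hr'3 (hN u r' h.symm)
    have pr'v : p r' = p v := third _ _ _ _ hwu pr'1 pr'2 (Ne.symm hwv) (Ne.symm huv)
    have hrw : r ≠ w := fun h => hr1 (h ▸ Or.inr awu.symm)
    have arr' : G.Adj r r' := by
      rcases hr'1 with h | h
      · exact absurd (h ▸ pr'v) pr2
      · exact h
    have hvr' : v ≠ r' := fun h => hr2 (Or.inr (h ▸ arr'.symm))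
    exact hC5 u v r' r w auv (hp v r' pr'v.symm hvr') arr'.symm (hp r w prw hrw) awu
      (fun h => hr'3 (Or.inr h)) (fun h => hr1 (Or.inr h)) (fun h => hr2 (Or.inr h))
      (fun h => hwv' h.symm) (fun h => hr'2 (Or.inr h.symm))
  -- every two parts have a vertex in the third
  have hcross : ∀ i : Fin 3, (∃ x, p x = i) → (∃ y, p y ≠ i) →
      ∃ x y, p x = i ∧ p y ≠ i ∧ G.Adj x y := by
    intro i ⟨x, hx⟩ ⟨y, hy⟩
    obtain ⟨w⟩ := hconn.preconnected x y
    induction w with
    | nil => exact absurd hx hy
    | @cons a b c h w ih =>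
      by_cases hb : p b = i
      · exact ih hb hy
      · exact ⟨a, b, hx, hb, h⟩
  obtain ⟨v0⟩ := hconn.nonempty
  obtain ⟨v1, ⟨h1, _⟩, _⟩ := hcon v0 v0
  have p1 : p v1 ≠ p v0 := fun h => h1 (hN v0 v1 h.symm)
  obtain ⟨v2, ⟨h2, h3⟩, _⟩ := hcon v0 v1
  have p2 : p v2 ≠ p v0 := fun h => h2 (hN v0 v2 h.symm)
  have p3 : p v2 ≠ p v1 := fun h => h3 (hN v1 v2 h.symm)
  have hsurj : ∀ i : Fin 3, ∃ x, p x = i := by
    intro i
    have : ∀ a b c i : Fin 3, b ≠ a → c ≠ a → c ≠ b → i = a ∨ i = b ∨ i = c := by decide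
    rcases this (p v0) (p v1) (p v2) i p1 p2 p3 with h | h | h
    · exact ⟨v0, h.symm⟩
    · exact ⟨v1, h.symm⟩
    · exact ⟨v2, h.symm⟩
  have hsurj' : ∀ i : Fin 3, ∃ x, p x ≠ i := by
    intro i
    have : ∀ i : Fin 3, ∃ j : Fin 3, j ≠ i := by decide
    obtain ⟨j, hj⟩ := this i
    obtain ⟨x, hx⟩ := hsurj j
    exact ⟨x, by rw [hx]; exact hj⟩
  -- two pairs of parts are joined
  have hjoin : ∃ a c b d, G.Adj a c ∧ G.Adj b d ∧ p c = p d ∧ p a ≠ p c ∧ p b ≠ p c ∧
      p a ≠ p b := by
    obtain ⟨x0, y0, hx0, hy0, e0⟩ := hcross 0 (hsurj 0) (hsurj' 0)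
    obtain ⟨x1, y1, hx1, hy1, e1⟩ := hcross 1 (hsurj 1) (hsurj' 1)
    obtain ⟨x2, y2, hx2, hy2, e2⟩ := hcross 2 (hsurj 2) (hsurj' 2)
    have hy0' : p y0 = 1 ∨ p y0 = 2 := by
      have : ∀ i : Fin 3, i ≠ 0 → i = 1 ∨ i = 2 := by decide
      exact this _ hy0
    have hy1' : p y1 = 0 ∨ p y1 = 2 := by
      have : ∀ i : Fin 3, i ≠ 1 → i = 0 ∨ i = 2 := by decide
      exact this _ hy1
    have hy2' : p y2 = 0 ∨ p y2 = 1 := by
      have : ∀ i : Fin 3, i ≠ 2 → i = 0 ∨ i = 1 := by decide
      exact this _ hy2
    rcases hy0' with h0 | h0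
    · rcases hy2' with h2 | h2
      · -- edges 0-1 and 2-0: common part 0
        refine ⟨y0, x0, x2, y2, e0.symm, e2, ?_, ?_, ?_, ?_⟩
        · rw [hx0, h2]
        · rw [h0, hx0]; decide
        · rw [hx2, hx0]; decide
        · rw [h0, hx2]; decide
      · -- edges 0-1 and 2-1: common part 1
        refine ⟨x0, y0, x2, y2, e0, e2, ?_, ?_, ?_, ?_⟩
        · rw [h0, h2]
        · rw [hx0, h0]; decide
        · rw [hx2, h0]; decide
        · rw [hx0, hx2]; decide
    · rcases hy1' with h1 | h1
      · -- edges 0-2 and 1-0: common part 0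
        refine ⟨y0, x0, x1, y1, e0.symm, e1, ?_, ?_, ?_, ?_⟩
        · rw [hx0, h1]
        · rw [h0, hx0]; decide
        · rw [hx1, hx0]; decide
        · rw [h0, hx1]; decide
      · -- edges 0-2 and 1-2: common part 2
        refine ⟨x0, y0, x1, y1, e0, e1, ?_, ?_, ?_, ?_⟩
        · rw [h0, h1]
        · rw [hx0, h0]; decide
        · rw [hx1, h0]; decide
        · rw [hx0, hx1]; decide
  obtain ⟨a0, c0, b1, d1, eac, ebd, pcd, pac, pbc, pab⟩ := hjoin
  -- a vertex with neighbours in both other parts
  obtain ⟨r, a, b, hra, hrb, pra, prb, pab'⟩ : ∃ r a b, G.Adj r a ∧ G.Adj r b ∧ p r ≠ p a ∧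
      p r ≠ p b ∧ p a ≠ p b := by
    obtain ⟨r, ⟨hr1, hr2⟩, hr⟩ := hcon a0 b1
    have pr1 : p r ≠ p a0 := fun h => hr1 (hN a0 r h.symm)
    have pr2 : p r ≠ p b1 := fun h => hr2 (hN b1 r h.symm)
    obtain ⟨r', h1, h2, h3⟩ := hr c0 b1 (Or.inr eac) (Or.inl rfl)
    obtain ⟨r'', h4, h5, h6⟩ := hr a0 d1 (Or.inl rfl) (Or.inr ebd)
    have q1 : p r' ≠ p c0 := fun h => h2 (hN c0 r' h.symm)
    have q2 : p r' ≠ p b1 := fun h => h3 (hN b1 r' h.symm)
    have q3 : p r'' ≠ p a0 := fun h => h5 (hN a0 r'' h.symm)
    have q4 : p r'' ≠ p d1 := fun h => h6 (hN d1 r'' h.symm)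
    rw [← pcd] at q4
    have q5 : p r' = p a0 := third _ _ _ _ (Ne.symm pbc) q1 q2 pac pab
    have q6 : p r'' = p b1 := third _ _ _ _ pac q3 q4 (Ne.symm pab) pbc
    have q7 : p r = p c0 := third _ _ _ _ pab pr1 pr2 (Ne.symm pac) (Ne.symm pbc)
    refine ⟨r, r', r'', ?_, ?_, ?_, ?_, ?_⟩
    · rcases h1 with h | h
      · exact absurd (by rw [← h]; exact q7) q1
      · exact h
    · rcases h4 with h | h
      · exact absurd (by rw [← h]; exact q7) q4
      · exact h
    · rw [q7, q5]; exact Ne.symm pac
    · rw [q7, q6]; exact Ne.symm pbc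
    · rw [q5, q6]; exact pab
  -- final contradiction
  obtain ⟨s, ⟨hs1, hs2⟩, hs⟩ := hcon a b
  have ps1 : p s ≠ p a := fun h => hs1 (hN a s h.symm)
  have ps2 : p s ≠ p b := fun h => hs2 (hN b s h.symm)
  have psr : p s = p r := third _ _ _ _ pab' ps1 ps2 pra prb
  obtain ⟨b', k1, k2, k3⟩ := hs a r (Or.inl rfl) (Or.inr hrb.symm)
  have pb1 : p b' ≠ p a := fun h => k2 (hN a b' h.symm)
  have pb2 : p b' ≠ p r := fun h => k3 (hN r b' h.symm)
  have pb' : p b' = p b := third _ _ _ _ (Ne.symm pra) pb1 pb2 (Ne.symm pab') (Ne.symm prb)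
  have asb' : G.Adj s b' := by
    rcases k1 with h | h
    · exact absurd (by rw [← h]; exact psr) pb2
    · exact h
  obtain ⟨a'', k4, k5, k6⟩ := hs r b' (Or.inr hra.symm) (hN b b' pb'.symm)
  have pa1 : p a'' ≠ p r := fun h => k5 (hN r a'' h.symm)
  have pa2 : p a'' ≠ p b' := fun h => k6 (hN b' a'' h.symm)
  have asa'' : G.Adj s a'' := by
    rcases k4 with h | h
    · exact absurd (by rw [← h]; exact psr) pa1
    · exact h
  -- `s ~ b'`, `a'' ~ s` imply `a'' ~ b'`
  apply k6
  right
  exact (L1 s b' a'' (by rw [psr]; exact Ne.symm pb2) (by rw [psr]; exact pa1) pa2 asb'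
    asa''.symm).symm

/-- two cops win -/
theorem copsWin_two [Fintype V] (hconn : G.Connected) (hG : IsPerfect G) (hα : G.indepNum = 3) :
    CopsWin G 2 := by
  classical
  obtain ⟨p, hp⟩ := three_cliques hG hα
  obtain ⟨u, v, huv⟩ := core hconn
    (fun a b c d e h1 h2 h3 h4 h5 h6 h7 h8 h9 h10 => no_C5 hG h1 h2 h3 h4 h5 h6 h7 h8 h9 h10) p hp
  -- a good move
  let good : (Fin 2 → V) → V → (Fin 2 → V) → Prop := fun c r c' =>
    N G (c 0) (c' 0) ∧ N G (c 1) (c' 1) ∧ ∀ r', N G r r' → (N G (c' 0) r' ∨ N G (c' 1) r')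
  let σ : (Fin 2 → V) → V → (Fin 2 → V) := fun c r =>
    if N G (c 0) r then ![r, c 1]
    else if N G (c 1) r then ![c 0, r]
    else if h : ∃ c', good c r c' then h.choose else c
  refine ⟨![u, v], σ, ?_, ?_⟩
  · intro c r i
    by_cases h0 : N G (c 0) r
    · have e : σ c r = ![r, c 1] := if_pos h0
      rw [e]
      fin_cases i
      · exact h0
      · exact Or.inl rfl
    · by_cases h1 : N G (c 1) r
      · have e : σ c r = ![c 0, r] := by simp only [σ]; rw [if_neg h0, if_pos h1]
        rw [e]
        fin_cases i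
        · exact Or.inl rfl
        · exact h1
      · by_cases h : ∃ c', good c r c'
        · have e : σ c r = h.choose := by
            simp only [σ]; rw [if_neg h0, if_neg h1, dif_pos h]
          rw [e]
          obtain ⟨g0, g1, _⟩ := h.choose_spec
          fin_cases i
          · exact g0
          · exact g1
        · have e : σ c r = c := by
            simp only [σ]; rw [if_neg h0, if_neg h1, dif_neg h]
          rw [e]
          exact Or.inl rfl
  · intro r hr c hc0 hc
    have catch0 : ∀ n, N G (c n 0) (r n) ∨ N G (c n 1) (r n) →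
        ∃ n i, c n i = r n ∨ c (n + 1) i = r n := by
      intro n h
      by_cases h0 : N G (c n 0) (r n)
      · refine ⟨n, 0, Or.inr ?_⟩
        rw [hc n]
        have e : σ (c n) (r n) = ![r n, c n 1] := if_pos h0
        rw [e]; rfl
      · have h1 := h.resolve_left h0
        refine ⟨n, 1, Or.inr ?_⟩
        rw [hc n]
        have e : σ (c n) (r n) = ![c n 0, r n] := by simp only [σ]; rw [if_neg h0, if_pos h1]
        rw [e]; rfl
    by_cases h : N G (c 0 0) (r 0) ∨ N G (c 0 1) (r 0)
    · exact catch0 0 h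
    · push Not at h
      obtain ⟨h0, h1⟩ := h
      have hex : ∃ c', good (c 0) (r 0) c' := by
        rw [hc0] at h0 h1 ⊢
        rcases huv (r 0) with h | ⟨u', v', hu', hv', h⟩
        · rcases h with h | h
          · exact absurd h h0
          · exact absurd h h1
        · exact ⟨![u', v'], hu', hv', h⟩
      have e : c 1 = hex.choose := by
        rw [hc 0]
        simp only [σ]; rw [if_neg h0, if_neg h1, dif_pos hex]
      obtain ⟨_, _, g⟩ := hex.choose_spec
      rw [← e] at g
      exact catch0 1 (g (r 1) (hr 0))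

/-- **Q1 holds**: on every finite connected perfect graph with independence number three two cops
win, so its cop number is at most two. -/
theorem result : ∀ (V : Type) [Fintype V] (G : SimpleGraph V), G.Connected → IsPerfect G →
    G.indepNum = 3 → CopsWin G 2 ∧ copNumber G ≤ 2 := by
  intro V _ G hconn hG hα
  have h := copsWin_two hconn hG hα
  exact ⟨h, Nat.sInf_le h⟩

end game

end Pool.Agent.Results.MP_985997_co.TwoCops
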